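import Pool.Agent.helper42.NS.Spec

/-!
# Row nos:ADJ (MP_abccb5_co): the coefficients of the adjugate of `X - H`
-/

namespace Pool.Agent.helper42.NS

open Polynomial Matrix

/-- the matrix polynomial `Q` -/
noncomputable def ADJ_Q {m : ℕ} (H : Matrix (Fin m) (Fin m) ℤ) : Matrix (Fin m) (Fin m) ℤ[X] :=
  ∑ s ∈ Finset.range (m + 1), C (H.charpoly.coeff s) •
    ∑ l ∈ Finset.range s, (Matrix.scalar (Fin m) (X : ℤ[X])) ^ l *
      ((C : ℤ →+* ℤ[X]).mapMatrix H) ^ (s - 1 - l)

theorem ADJ_deg {m : ℕ} (H : Matrix (Fin m) (Fin m) ℤ) : H.charpoly.natDegree < m + 1 := by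
  rw [Matrix.charpoly_natDegree_eq_dim, Fintype.card_fin]
  exact Nat.lt_succ_self m

theorem ADJ_mul {m : ℕ} (H : Matrix (Fin m) (Fin m) ℤ) :
    Matrix.charmatrix H * ADJ_Q H = H.charpoly • (1 : Matrix (Fin m) (Fin m) ℤ[X]) := by
  have hcomm : Commute (Matrix.scalar (Fin m) (X : ℤ[X])) ((C : ℤ →+* ℤ[X]).mapMatrix H) :=
    Matrix.scalar_commute _ (fun r => Commute.all _ _) _
  have e1 : Matrix.charmatrix H * ADJ_Q H = ∑ s ∈ Finset.range (m + 1), C (H.charpoly.coeff s) •
      ((Matrix.scalar (Fin m) (X : ℤ[X])) ^ s - ((C : ℤ →+* ℤ[X]).mapMatrix H) ^ s) := by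
    unfold ADJ_Q
    rw [Finset.mul_sum]
    refine Finset.sum_congr rfl (fun s _ => ?_)
    rw [Matrix.mul_smul]
    congr 1
    exact hcomm.mul_geom_sum₂ s
  have e2 : ∑ s ∈ Finset.range (m + 1), C (H.charpoly.coeff s) • (Matrix.scalar (Fin m) (X : ℤ[X])) ^ s =
      H.charpoly • (1 : Matrix (Fin m) (Fin m) ℤ[X]) := by
    have e3 : ∀ s : ℕ, C (H.charpoly.coeff s) • (Matrix.scalar (Fin m) (X : ℤ[X])) ^ s =
        (C (H.charpoly.coeff s) * X ^ s) • (1 : Matrix (Fin m) (Fin m) ℤ[X]) := by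
      intro s
      rw [← map_pow, mul_smul]
      congr 1
      ext i j
      rw [Matrix.scalar_apply, Matrix.smul_apply, Matrix.diagonal_apply, Matrix.one_apply]
      split_ifs
      · simp
      · simp
    rw [Finset.sum_congr rfl (fun s _ => e3 s), ← Finset.sum_smul]
    congr 1
    exact (Polynomial.as_sum_range_C_mul_X_pow' H.charpoly (ADJ_deg H)).symm
  have e4 : ∑ s ∈ Finset.range (m + 1), C (H.charpoly.coeff s) • ((C : ℤ →+* ℤ[X]).mapMatrix H) ^ s = 0 := by
    have e5 : ∀ s : ℕ, C (H.charpoly.coeff s) • ((C : ℤ →+* ℤ[X]).mapMatrix H) ^ s =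
        (C : ℤ →+* ℤ[X]).mapMatrix (H.charpoly.coeff s • H ^ s) := by
      intro s
      rw [← map_pow]
      ext i j
      simp only [Matrix.smul_apply, RingHom.mapMatrix_apply, Matrix.map_apply, smul_eq_mul, map_mul]
    rw [Finset.sum_congr rfl (fun s _ => e5 s), ← map_sum,
      ← Polynomial.aeval_eq_sum_range' (ADJ_deg H), Matrix.aeval_self_charpoly, map_zero]
  rw [e1]
  simp only [smul_sub]
  rw [Finset.sum_sub_distrib, e2, e4, sub_zero]

theorem ADJ_eq {m : ℕ} (H : Matrix (Fin m) (Fin m) ℤ) : Matrix.adjugate (Matrix.charmatrix H) = ADJ_Q H := by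
  have h1 : Matrix.charmatrix H * (ADJ_Q H - Matrix.adjugate (Matrix.charmatrix H)) = 0 := by
    rw [mul_sub, ADJ_mul, Matrix.mul_adjugate, Matrix.charpoly, sub_self]
  have h2 : Matrix.adjugate (Matrix.charmatrix H) * (Matrix.charmatrix H *
      (ADJ_Q H - Matrix.adjugate (Matrix.charmatrix H))) = Matrix.adjugate (Matrix.charmatrix H) * 0 := by
    rw [h1]
  rw [← mul_assoc, Matrix.adjugate_mul, mul_zero, Matrix.smul_mul, one_mul] at h2
  have h3 : H.charpoly ≠ 0 := (Matrix.charpoly_monic H).ne_zero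
  have h4 : ADJ_Q H - Matrix.adjugate (Matrix.charmatrix H) = 0 := by
    ext1 i j
    have h5 := congrFun (congrFun h2 i) j
    rw [Matrix.smul_apply, Matrix.zero_apply, smul_eq_mul] at h5
    rw [Matrix.zero_apply]
    exact (mul_eq_zero.mp h5).resolve_left h3
  exact (sub_eq_zero.mp h4).symm

theorem ADJ_coeff {m : ℕ} (H : Matrix (Fin m) (Fin m) ℤ) (i j : Fin m) (k : ℕ) :
    (ADJ_Q H i j).coeff k = ∑ s ∈ Finset.range (m + 1),
      H.charpoly.coeff s * (if k < s then (H ^ (s - 1 - k)) i j else 0) := by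
  unfold ADJ_Q
  rw [Matrix.sum_apply, Polynomial.finsetSum_coeff]
  refine Finset.sum_congr rfl (fun s _ => ?_)
  rw [Matrix.smul_apply, smul_eq_mul, Polynomial.coeff_C_mul, Matrix.sum_apply, Polynomial.finsetSum_coeff]
  congr 1
  have e1 : ∀ l : ℕ, (((Matrix.scalar (Fin m) (X : ℤ[X])) ^ l *
      ((C : ℤ →+* ℤ[X]).mapMatrix H) ^ (s - 1 - l)) i j).coeff k =
      if k = l then (H ^ (s - 1 - l)) i j else 0 := by
    intro l
    rw [← map_pow, ← map_pow, Matrix.scalar_apply, Matrix.diagonal_mul, RingHom.mapMatrix_apply,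
      Matrix.map_apply, Polynomial.coeff_mul_C, Polynomial.coeff_X_pow]
    split_ifs
    · rw [one_mul]
    · rw [zero_mul]
  rw [Finset.sum_congr rfl (fun l _ => e1 l), Finset.sum_ite_eq]
  simp only [Finset.mem_range]

theorem ADJ : ADJ_stmt := by
  intro m H v w k
  have e1 : (PP H v w).coeff k = ∑ i, v i * ∑ j, (∑ s ∈ Finset.range (m + 1),
      H.charpoly.coeff s * (if k < s then (H ^ (s - 1 - k)) i j else 0)) * w j := by
    unfold PP
    rw [ADJ_eq]
    simp only [dotProduct, Matrix.mulVec]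
    rw [Polynomial.finsetSum_coeff]
    refine Finset.sum_congr rfl (fun i _ => ?_)
    rw [Polynomial.coeff_C_mul, Polynomial.finsetSum_coeff]
    congr 1
    refine Finset.sum_congr rfl (fun j _ => ?_)
    rw [Polynomial.coeff_mul_C, ADJ_coeff]
  rw [e1]
  have e2 : ∀ s : ℕ, (if k < s then (v ⬝ᵥ (H ^ (s - 1 - k)).mulVec w) else 0) =
      ∑ i, v i * ∑ j, (if k < s then (H ^ (s - 1 - k)) i j else 0) * w j := by
    intro s
    split_ifs with h
    · rfl
    · simp
  have e3 : ∑ i, v i * ∑ j, (∑ s ∈ Finset.range (m + 1),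
      H.charpoly.coeff s * (if k < s then (H ^ (s - 1 - k)) i j else 0)) * w j =
      ∑ s ∈ Finset.range (m + 1), H.charpoly.coeff s *
        (if k < s then (v ⬝ᵥ (H ^ (s - 1 - k)).mulVec w) else 0) := by
    simp only [e2, Finset.mul_sum, Finset.sum_mul]
    rw [Finset.sum_congr rfl (fun i _ => Finset.sum_comm)]
    rw [Finset.sum_comm]
    refine Finset.sum_congr rfl (fun s _ => Finset.sum_congr rfl (fun i _ =>
      Finset.sum_congr rfl (fun j _ => ?_)))
    ring
  rw [e3]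
  have e4 : Finset.Ico (k + 1) (m + 1) = (Finset.range (m + 1)).filter (fun s => k < s) := by
    ext s
    simp only [Finset.mem_Ico, Finset.mem_filter, Finset.mem_range]
    omega
  rw [e4, Finset.sum_filter]
  refine Finset.sum_congr rfl (fun s _ => ?_)
  split_ifs with h
  · have : s - k - 1 = s - 1 - k := by omega
    rw [this]
  · rw [mul_zero]

end Pool.Agent.helper42.NS
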